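import Pool.Agent.H12.EU.Up

/-!
The Kakutani map `C` (`n / 2`, `n / 3`, `5 n + 1`): the number of `n ≤ N` which do not fall below
their starting value in the first `i` steps is at most `c lam ^ i N + K`, `K` depends on `i` only.

Proof. `rho i n` is the product of the multipliers (`1/2`, `1/3`, `5`) of the first `i` steps. Then
`C^[i] n ≤ rho i n * n + 5 ^ i`, so `n ≤ C^[i] n` and `n ≥ 2 * 5 ^ i` give `1 ≤ 2 * rho i n`. The
sum of `rho i` over the progression `A + 6 Q s`, `s < T`, is at most `lam ^ i u (A % 6) T + K`,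
where `u` is a supersolution of the recursion on the residues modulo `6`.
-/

set_option autoImplicit false

namespace Pool.Agent.H19.KD

open Pool.Agent.H83.EX Finset

/-- the multiplier of one step -/
noncomputable def mm (n : ℕ) : ℝ := if n % 2 = 0 then 1 / 2 else if n % 3 = 0 then 1 / 3 else 5

/-- the product of the multipliers of the first `i` steps -/
noncomputable def rho : ℕ → ℕ → ℝ
  | 0, _ => 1
  | i + 1, n => mm n * rho i (C n)

lemma mm_nonneg (n : ℕ) : 0 ≤ mm n := by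
  unfold mm
  split_ifs <;> norm_num

lemma mm_le (n : ℕ) : mm n ≤ 5 := by
  unfold mm
  split_ifs <;> norm_num

lemma rho_nonneg (i n : ℕ) : 0 ≤ rho i n := by
  induction i generalizing n with
  | zero => exact zero_le_one
  | succ i ih => exact mul_nonneg (mm_nonneg n) (ih (C n))

lemma rho_le (i n : ℕ) : rho i n ≤ 5 ^ i := by
  induction i generalizing n with
  | zero => simp [rho]
  | succ i ih =>
    rw [pow_succ, mul_comm]
    exact mul_le_mul (mm_le n) (ih (C n)) (rho_nonneg i _) (by norm_num)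

lemma C_le (n : ℕ) : (C n : ℝ) ≤ mm n * n + 1 := by
  unfold C mm
  split_ifs with h1 h2
  · have h3 : n = 2 * (n / 2) := by omega
    have h4 : (n : ℝ) = 2 * ((n / 2 : ℕ) : ℝ) := by exact_mod_cast h3
    rw [h4]
    have : (2 * (n / 2)) / 2 = n / 2 := by omega
    linarith
  · have h3 : n = 3 * (n / 3) := by omega
    have h4 : (n : ℝ) = 3 * ((n / 3 : ℕ) : ℝ) := by exact_mod_cast h3
    rw [h4]
    linarith
  · push_cast
    linarith

lemma iter_le (i n : ℕ) : ((C^[i] n : ℕ) : ℝ) ≤ rho i n * n + 5 ^ i := by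
  induction i generalizing n with
  | zero => simp [rho]
  | succ i ih =>
    rw [Function.iterate_succ_apply]
    refine (ih (C n)).trans ?_
    have h1 : rho i (C n) * (C n : ℝ) ≤ rho i (C n) * (mm n * n + 1) :=
      mul_le_mul_of_nonneg_left (C_le n) (rho_nonneg i _)
    have h2 := rho_le i (C n)
    have h3 : rho (i + 1) n = mm n * rho i (C n) := rfl
    have h4 : (0 : ℝ) < 5 ^ i := by positivity
    rw [h3, pow_succ]
    nlinarith

/-- the sum over a progression -/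
noncomputable def SS (i A Q T : ℕ) : ℝ := ∑ s ∈ range T, rho i (A + 6 * Q * s)

lemma SS_mono (i A Q : ℕ) {T T' : ℕ} (h : T ≤ T') : SS i A Q T ≤ SS i A Q T' :=
  Finset.sum_le_sum_of_subset_of_nonneg (Finset.range_mono h) (fun _ _ _ => rho_nonneg _ _)

lemma sum_two (f : ℕ → ℝ) (T : ℕ) :
    ∑ s ∈ range (2 * T), f s = ∑ s ∈ range T, f (2 * s) + ∑ s ∈ range T, f (2 * s + 1) := by
  induction T with
  | zero => simp
  | succ T ih =>
    have h : 2 * (T + 1) = 2 * T + 1 + 1 := by ring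
    rw [h, Finset.sum_range_succ, Finset.sum_range_succ, ih, Finset.sum_range_succ,
      Finset.sum_range_succ]
    ring

lemma sum_three (f : ℕ → ℝ) (T : ℕ) :
    ∑ s ∈ range (3 * T), f s = ∑ s ∈ range T, f (3 * s) + ∑ s ∈ range T, f (3 * s + 1) +
      ∑ s ∈ range T, f (3 * s + 2) := by
  induction T with
  | zero => simp
  | succ T ih =>
    have h : 3 * (T + 1) = 3 * T + 1 + 1 + 1 := by ring
    rw [h, Finset.sum_range_succ, Finset.sum_range_succ, Finset.sum_range_succ, ih,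
      Finset.sum_range_succ, Finset.sum_range_succ, Finset.sum_range_succ]
    ring

lemma SS_even (i A Q T : ℕ) (hA : A % 2 = 0) :
    SS (i + 1) A Q T ≤ 1 / 2 * (SS i (A / 2) Q (T / 2 + 1) + SS i (A / 2 + 3 * Q) Q (T / 2 + 1)) := by
  have h1 : SS (i + 1) A Q T ≤ SS (i + 1) A Q (2 * (T / 2 + 1)) := SS_mono _ _ _ (by omega)
  refine h1.trans (le_of_eq ?_)
  unfold SS
  rw [sum_two, mul_add, Finset.mul_sum, Finset.mul_sum]
  have hA2 : A = 2 * (A / 2) := by omega
  have step : ∀ j s : ℕ, rho (i + 1) (A + 6 * Q * (2 * s + j)) =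
      1 / 2 * rho i (A / 2 + 3 * Q * j + 6 * Q * s) := by
    intro j s
    have h2 : A + 6 * Q * (2 * s + j) = 2 * (A / 2 + 3 * Q * j + 6 * Q * s) := by
      calc A + 6 * Q * (2 * s + j) = 2 * (A / 2) + 6 * Q * (2 * s + j) := by rw [← hA2]
        _ = _ := by ring
    have h3 : rho (i + 1) (A + 6 * Q * (2 * s + j)) = mm (A + 6 * Q * (2 * s + j)) *
      rho i (C (A + 6 * Q * (2 * s + j))) := rfl
    rw [h3, h2]
    have h4 : 2 * (A / 2 + 3 * Q * j + 6 * Q * s) % 2 = 0 := by omega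
    have h5 : C (2 * (A / 2 + 3 * Q * j + 6 * Q * s)) = A / 2 + 3 * Q * j + 6 * Q * s := by
      unfold C
      rw [if_pos h4]
      omega
    have h6 : mm (2 * (A / 2 + 3 * Q * j + 6 * Q * s)) = 1 / 2 := by
      unfold mm
      rw [if_pos h4]
    rw [h5, h6]
  refine congrArg₂ (· + ·) (Finset.sum_congr rfl fun s _ => ?_) (Finset.sum_congr rfl fun s _ => ?_)
  · have := step 0 s
    simpa using this
  · have := step 1 s
    simpa using this

lemma SS_three (i A Q T : ℕ) (hA : A % 6 = 3) :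
    SS (i + 1) A Q T ≤ 1 / 3 * (SS i (A / 3) Q (T / 3 + 1) + SS i (A / 3 + 2 * Q) Q (T / 3 + 1) +
      SS i (A / 3 + 4 * Q) Q (T / 3 + 1)) := by
  have h1 : SS (i + 1) A Q T ≤ SS (i + 1) A Q (3 * (T / 3 + 1)) := SS_mono _ _ _ (by omega)
  refine h1.trans (le_of_eq ?_)
  unfold SS
  rw [sum_three, mul_add, mul_add, Finset.mul_sum, Finset.mul_sum, Finset.mul_sum]
  have hA2 : A = 3 * (A / 3) := by omega
  have step : ∀ j s : ℕ, rho (i + 1) (A + 6 * Q * (3 * s + j)) =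
      1 / 3 * rho i (A / 3 + 2 * Q * j + 6 * Q * s) := by
    intro j s
    have h2 : A + 6 * Q * (3 * s + j) = 3 * (A / 3 + 2 * Q * j + 6 * Q * s) := by
      calc A + 6 * Q * (3 * s + j) = 3 * (A / 3) + 6 * Q * (3 * s + j) := by rw [← hA2]
        _ = _ := by ring
    have h3 : rho (i + 1) (A + 6 * Q * (3 * s + j)) = mm (A + 6 * Q * (3 * s + j)) *
      rho i (C (A + 6 * Q * (3 * s + j))) := rfl
    have h7 : (A + 6 * Q * (3 * s + j)) % 2 = 1 := by
      have : A + 6 * Q * (3 * s + j) = A + 2 * (3 * Q * (3 * s + j)) := by ring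
      rw [this]
      omega
    rw [h2] at h7
    rw [h3, h2]
    have h4 : 3 * (A / 3 + 2 * Q * j + 6 * Q * s) % 3 = 0 := by omega
    have h4' : ¬ 3 * (A / 3 + 2 * Q * j + 6 * Q * s) % 2 = 0 := by omega
    have h5 : C (3 * (A / 3 + 2 * Q * j + 6 * Q * s)) = A / 3 + 2 * Q * j + 6 * Q * s := by
      unfold C
      rw [if_neg h4', if_pos h4]
      omega
    have h6 : mm (3 * (A / 3 + 2 * Q * j + 6 * Q * s)) = 1 / 3 := by
      unfold mm
      rw [if_neg h4', if_pos h4]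
    rw [h5, h6]
  refine congrArg₂ (· + ·) (congrArg₂ (· + ·) (Finset.sum_congr rfl fun s _ => ?_)
    (Finset.sum_congr rfl fun s _ => ?_)) (Finset.sum_congr rfl fun s _ => ?_)
  · have := step 0 s
    simpa using this
  · have := step 1 s
    simpa using this
  · have := step 2 s
    have e : 2 * Q * 2 = 4 * Q := by ring
    rw [e] at this
    exact this

lemma SS_five (i A Q T : ℕ) (hA : A % 6 = 1 ∨ A % 6 = 5) :
    SS (i + 1) A Q T = 5 * SS i (5 * A + 1) (5 * Q) T := by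
  unfold SS
  rw [Finset.mul_sum]
  refine Finset.sum_congr rfl fun s _ => ?_
  have h3 : rho (i + 1) (A + 6 * Q * s) = mm (A + 6 * Q * s) * rho i (C (A + 6 * Q * s)) := rfl
  have h4 : ¬ (A + 6 * Q * s) % 2 = 0 := by
    have : A + 6 * Q * s = A + 2 * (3 * Q * s) := by ring
    rw [this]
    omega
  have h5 : ¬ (A + 6 * Q * s) % 3 = 0 := by
    have : A + 6 * Q * s = A + 3 * (2 * Q * s) := by ring
    rw [this]
    omega
  have h6 : C (A + 6 * Q * s) = 5 * A + 1 + 6 * (5 * Q) * s := by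
    unfold C
    rw [if_neg h4, if_neg h5]
    ring
  have h7 : mm (A + 6 * Q * s) = 5 := by
    unfold mm
    rw [if_neg h4, if_neg h5]
  rw [h3, h6, h7]

/-- the supersolution -/
noncomputable def uu : ℕ → ℝ
  | 0 => 3
  | 1 => 16
  | 2 => 8
  | 3 => 8
  | 4 => 14
  | _ => 43

lemma one_le_uu (r : ℕ) : 1 ≤ uu r := by
  unfold uu
  split <;> norm_num

lemma uu_le (r : ℕ) : uu r ≤ 43 := by
  unfold uu
  split <;> norm_num

lemma SS_le (i : ℕ) : ∃ K : ℝ, 0 ≤ K ∧ ∀ A Q T : ℕ, Q % 2 = 1 → Q % 3 ≠ 0 →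
    SS i A Q T ≤ (97 / 100) ^ i * uu (A % 6) * T + K := by
  induction i with
  | zero =>
    refine ⟨0, le_rfl, ?_⟩
    intro A Q T _ _
    have h1 : SS 0 A Q T = T := by
      unfold SS
      simp [rho]
    rw [h1, pow_zero, one_mul, add_zero]
    have h2 := one_le_uu (A % 6)
    have h3 : (0 : ℝ) ≤ T := Nat.cast_nonneg T
    nlinarith
  | succ i ih =>
    obtain ⟨K, hK, ih⟩ := ih
    refine ⟨5 * K + 100, by linarith, ?_⟩
    intro A Q T hQ2 hQ3
    have hT : (0 : ℝ) ≤ T := Nat.cast_nonneg T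
    set L : ℝ := (97 / 100) ^ i with hL
    have hL0 : 0 ≤ L := by positivity
    have hL1 : L ≤ 1 := pow_le_one₀ (by norm_num) (by norm_num)
    have hLT : 0 ≤ L * T := mul_nonneg hL0 hT
    have hLs : ((97 : ℝ) / 100) ^ (i + 1) = L * (97 / 100) := pow_succ _ _
    rw [hLs]
    have hT2 : (((T / 2 + 1 : ℕ) : ℕ) : ℝ) ≤ T / 2 + 1 := by
      push_cast
      have : ((T / 2 : ℕ) : ℝ) ≤ (T : ℝ) / 2 := Nat.cast_div_le
      linarith
    have hT3 : (((T / 3 + 1 : ℕ) : ℕ) : ℝ) ≤ T / 3 + 1 := by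
      push_cast
      have : ((T / 3 : ℕ) : ℝ) ≤ (T : ℝ) / 3 := Nat.cast_div_le
      linarith
    have even : ∀ a b : ℝ, 0 ≤ a → 0 ≤ b → A % 2 = 0 → uu (A / 2 % 6) = a →
        uu ((A / 2 + 3 * Q) % 6) = b →
        SS (i + 1) A Q T ≤ L * T * ((a + b) / 4) + (a + b) / 2 + K := by
      intro a b ha hb hA h1 h2
      have e1 := ih (A / 2) Q (T / 2 + 1) hQ2 hQ3
      have e2 := ih (A / 2 + 3 * Q) Q (T / 2 + 1) hQ2 hQ3
      rw [h1] at e1
      rw [h2] at e2
      have e3 := SS_even i A Q T hA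
      have e4 : L * a * (((T / 2 + 1 : ℕ) : ℕ) : ℝ) ≤ L * a * (T / 2 + 1) :=
        mul_le_mul_of_nonneg_left hT2 (mul_nonneg hL0 ha)
      have e5 : L * b * (((T / 2 + 1 : ℕ) : ℕ) : ℝ) ≤ L * b * (T / 2 + 1) :=
        mul_le_mul_of_nonneg_left hT2 (mul_nonneg hL0 hb)
      have e6 : L * a ≤ 1 * a := mul_le_mul_of_nonneg_right hL1 ha
      have e7 : L * b ≤ 1 * b := mul_le_mul_of_nonneg_right hL1 hb
      nlinarith
    have hr : A % 6 < 6 := Nat.mod_lt _ (by norm_num)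
    interval_cases hAr : A % 6
    · have hc : (A / 2 % 6 = 0 ∧ (A / 2 + 3 * Q) % 6 = 3) ∨
          (A / 2 % 6 = 3 ∧ (A / 2 + 3 * Q) % 6 = 0) := by omega
      rcases hc with ⟨c1, c2⟩ | ⟨c1, c2⟩
      · have := even 3 8 (by norm_num) (by norm_num) (by omega) (by rw [c1]; rfl) (by rw [c2]; rfl)
        have hu : uu 0 = 3 := rfl
        rw [hu]
        linarith
      · have := even 8 3 (by norm_num) (by norm_num) (by omega) (by rw [c1]; rfl) (by rw [c2]; rfl)
        have hu : uu 0 = 3 := rfl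
        rw [hu]
        linarith
    · have e1 := ih (5 * A + 1) (5 * Q) T (by omega) (by omega)
      have c1 : (5 * A + 1) % 6 = 0 := by omega
      have hu0 : uu 0 = 3 := rfl
      have hu : uu 1 = 16 := rfl
      rw [c1, hu0] at e1
      rw [SS_five i A Q T (by omega), hu]
      linarith
    · have hc : (A / 2 % 6 = 1 ∧ (A / 2 + 3 * Q) % 6 = 4) ∨
          (A / 2 % 6 = 4 ∧ (A / 2 + 3 * Q) % 6 = 1) := by omega
      rcases hc with ⟨c1, c2⟩ | ⟨c1, c2⟩
      · have := even 16 14 (by norm_num) (by norm_num) (by omega) (by rw [c1]; rfl)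
          (by rw [c2]; rfl)
        have hu : uu 2 = 8 := rfl
        rw [hu]
        linarith
      · have := even 14 16 (by norm_num) (by norm_num) (by omega) (by rw [c1]; rfl)
          (by rw [c2]; rfl)
        have hu : uu 2 = 8 := rfl
        rw [hu]
        linarith
    · have e1 := ih (A / 3) Q (T / 3 + 1) hQ2 hQ3
      have e2 := ih (A / 3 + 2 * Q) Q (T / 3 + 1) hQ2 hQ3
      have e3 := ih (A / 3 + 4 * Q) Q (T / 3 + 1) hQ2 hQ3
      have e0 := SS_three i A Q T hAr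
      have hsum : uu (A / 3 % 6) + uu ((A / 3 + 2 * Q) % 6) + uu ((A / 3 + 4 * Q) % 6) = 67 := by
        have h1 : uu 1 = 16 := rfl
        have h3 : uu 3 = 8 := rfl
        have h5 : uu 5 = 43 := rfl
        have hc : (A / 3 % 6 = 1 ∧ (A / 3 + 2 * Q) % 6 = 3 ∧ (A / 3 + 4 * Q) % 6 = 5) ∨
          (A / 3 % 6 = 1 ∧ (A / 3 + 2 * Q) % 6 = 5 ∧ (A / 3 + 4 * Q) % 6 = 3) ∨
          (A / 3 % 6 = 3 ∧ (A / 3 + 2 * Q) % 6 = 1 ∧ (A / 3 + 4 * Q) % 6 = 5) ∨
          (A / 3 % 6 = 3 ∧ (A / 3 + 2 * Q) % 6 = 5 ∧ (A / 3 + 4 * Q) % 6 = 1) ∨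
          (A / 3 % 6 = 5 ∧ (A / 3 + 2 * Q) % 6 = 1 ∧ (A / 3 + 4 * Q) % 6 = 3) ∨
          (A / 3 % 6 = 5 ∧ (A / 3 + 2 * Q) % 6 = 3 ∧ (A / 3 + 4 * Q) % 6 = 1) := by
          have hQ6 : Q % 6 = 1 ∨ Q % 6 = 5 := by omega
          have hA6 : A / 3 % 6 = 1 ∨ A / 3 % 6 = 3 ∨ A / 3 % 6 = 5 := by omega
          rcases hQ6 with hQ6 | hQ6 <;> rcases hA6 with hA6 | hA6 | hA6 <;> omega
        rcases hc with ⟨c1, c2, c3⟩ | ⟨c1, c2, c3⟩ | ⟨c1, c2, c3⟩ | ⟨c1, c2, c3⟩ | ⟨c1, c2, c3⟩ |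
          ⟨c1, c2, c3⟩ <;> rw [c1, c2, c3, h1, h3, h5] <;> norm_num
      have hu : uu 3 = 8 := rfl
      rw [hu]
      have e4 : L * uu (A / 3 % 6) * (((T / 3 + 1 : ℕ) : ℕ) : ℝ) +
          L * uu ((A / 3 + 2 * Q) % 6) * (((T / 3 + 1 : ℕ) : ℕ) : ℝ) +
          L * uu ((A / 3 + 4 * Q) % 6) * (((T / 3 + 1 : ℕ) : ℕ) : ℝ) =
          L * 67 * (((T / 3 + 1 : ℕ) : ℕ) : ℝ) := by
        rw [← hsum]
        ring
      have e5 : L * 67 * (((T / 3 + 1 : ℕ) : ℕ) : ℝ) ≤ L * 67 * (T / 3 + 1) :=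
        mul_le_mul_of_nonneg_left hT3 (by positivity)
      nlinarith
    · have hc : (A / 2 % 6 = 2 ∧ (A / 2 + 3 * Q) % 6 = 5) ∨
          (A / 2 % 6 = 5 ∧ (A / 2 + 3 * Q) % 6 = 2) := by omega
      rcases hc with ⟨c1, c2⟩ | ⟨c1, c2⟩
      · have := even 8 43 (by norm_num) (by norm_num) (by omega) (by rw [c1]; rfl)
          (by rw [c2]; rfl)
        have hu : uu 4 = 14 := rfl
        rw [hu]
        linarith
      · have := even 43 8 (by norm_num) (by norm_num) (by omega) (by rw [c1]; rfl)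
          (by rw [c2]; rfl)
        have hu : uu 4 = 14 := rfl
        rw [hu]
        linarith
    · have e1 := ih (5 * A + 1) (5 * Q) T (by omega) (by omega)
      have c1 : (5 * A + 1) % 6 = 2 := by omega
      have hu0 : uu 2 = 8 := rfl
      have hu : uu 5 = 43 := rfl
      rw [c1, hu0] at e1
      rw [SS_five i A Q T (by omega), hu]
      linarith

lemma sum_six (f : ℕ → ℝ) (T : ℕ) :
    ∑ s ∈ range (6 * T), f s = ∑ r ∈ range 6, ∑ s ∈ range T, f (r + 6 * 1 * s) := by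
  induction T with
  | zero => simp
  | succ T ih =>
    have h : 6 * (T + 1) = 6 * T + 1 + 1 + 1 + 1 + 1 + 1 := by ring
    have h2 : ∀ r, ∑ s ∈ range (T + 1), f (r + 6 * 1 * s) =
        ∑ s ∈ range T, f (r + 6 * 1 * s) + f (6 * T + r) := by
      intro r
      rw [Finset.sum_range_succ]
      have : r + 6 * 1 * T = 6 * T + r := by ring
      rw [this]
    rw [Finset.sum_congr rfl fun r _ => h2 r, Finset.sum_add_distrib, ← ih, h]
    simp only [Finset.sum_range_succ, Finset.sum_range_zero]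
    ring_nf

lemma rho_sum_le (i : ℕ) : ∃ K : ℝ, ∀ N : ℕ,
    ∑ n ∈ range (N + 1), rho i n ≤ 43 * (97 / 100) ^ i * N + K := by
  obtain ⟨K, hK, h⟩ := SS_le i
  refine ⟨6 * (43 + K), ?_⟩
  intro N
  have h1 : ∑ n ∈ range (N + 1), rho i n ≤ ∑ n ∈ range (6 * (N / 6 + 1)), rho i n :=
    Finset.sum_le_sum_of_subset_of_nonneg (Finset.range_mono (by omega))
      (fun _ _ _ => rho_nonneg _ _)
  refine h1.trans ?_
  rw [sum_six]
  have hL0 : (0 : ℝ) ≤ (97 / 100) ^ i := by positivity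
  have hL1 : ((97 : ℝ) / 100) ^ i ≤ 1 := pow_le_one₀ (by norm_num) (by norm_num)
  have hN : (((N / 6 + 1 : ℕ) : ℕ) : ℝ) ≤ N / 6 + 1 := by
    push_cast
    have : ((N / 6 : ℕ) : ℝ) ≤ (N : ℝ) / 6 := Nat.cast_div_le
    linarith
  have h2 : ∀ r ∈ range 6, ∑ s ∈ range (N / 6 + 1), rho i (r + 6 * 1 * s) ≤
      (97 / 100) ^ i * 43 * (N / 6 + 1) + K := by
    intro r _
    refine (h r 1 (N / 6 + 1) (by norm_num) (by norm_num)).trans ?_
    have h3 : (97 / 100 : ℝ) ^ i * uu (r % 6) * ((N / 6 + 1 : ℕ) : ℝ) ≤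
        (97 / 100) ^ i * 43 * (N / 6 + 1) := by
      refine mul_le_mul ?_ hN (Nat.cast_nonneg _) (by positivity)
      exact mul_le_mul_of_nonneg_left (uu_le _) hL0
    linarith
  refine (Finset.sum_le_sum h2).trans ?_
  rw [Finset.sum_const, Finset.card_range, nsmul_eq_mul]
  push_cast
  linarith

open Classical in
theorem alive_le : ∃ c lam : ℝ, 0 < c ∧ 0 < lam ∧ lam < 1 ∧ ∀ i : ℕ, ∃ K : ℝ, ∀ N : ℕ, 1 ≤ N →
  ((((Icc 1 N).filter (fun n => ∀ j : ℕ, j ≤ i → n ≤ C^[j] n)).card : ℕ) : ℝ) ≤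
    c * lam ^ i * N + K := by
  refine ⟨86, 97 / 100, by norm_num, by norm_num, by norm_num, ?_⟩
  intro i
  obtain ⟨K, hK⟩ := rho_sum_le i
  refine ⟨2 * K + 2 * 5 ^ i, ?_⟩
  intro N _
  have h1 : (((Icc 1 N).filter (fun n => ∀ j : ℕ, j ≤ i → n ≤ C^[j] n)).card : ℝ) ≤
      ∑ n ∈ range (N + 1), (2 * rho i n + if n < 2 * 5 ^ i then (1 : ℝ) else 0) := by
    rw [Finset.card_filter]
    push_cast
    have h2 : ∀ n ∈ Icc 1 N, (if ∀ j : ℕ, j ≤ i → n ≤ C^[j] n then (1 : ℝ) else 0) ≤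
        2 * rho i n + if n < 2 * 5 ^ i then (1 : ℝ) else 0 := by
      intro n hn
      have h0 := rho_nonneg i n
      by_cases h3 : n < 2 * 5 ^ i
      · rw [if_pos h3]
        split_ifs <;> linarith
      · rw [if_neg h3]
        split_ifs with h4
        · have h5 : (n : ℝ) ≤ ((C^[i] n : ℕ) : ℝ) := by exact_mod_cast h4 i le_rfl
          have h6 := iter_le i n
          have h7 : (2 : ℝ) * 5 ^ i ≤ n := by
            have : 2 * 5 ^ i ≤ n := not_lt.mp h3
            exact_mod_cast this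
          have h8 : (0 : ℝ) < 5 ^ i := by positivity
          have h9 : (0 : ℝ) < n := by linarith
          have h10 : (n : ℝ) * 1 ≤ n * (2 * rho i n) := by linarith
          have h11 := le_of_mul_le_mul_left h10 h9
          linarith
        · linarith
    refine (Finset.sum_le_sum h2).trans ?_
    refine Finset.sum_le_sum_of_subset_of_nonneg ?_ ?_
    · intro n hn
      rw [Finset.mem_Icc] at hn
      rw [Finset.mem_range]
      omega
    · intro n _ _
      have := rho_nonneg i n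
      split_ifs <;> linarith
  refine h1.trans ?_
  rw [Finset.sum_add_distrib, ← Finset.mul_sum]
  have h2 : ∑ n ∈ range (N + 1), (if n < 2 * 5 ^ i then (1 : ℝ) else 0) ≤ 2 * 5 ^ i := by
    rw [Finset.sum_ite, Finset.sum_const_zero, add_zero, Finset.sum_const, nsmul_eq_mul, mul_one]
    have h3 : ((range (N + 1)).filter (fun n => n < 2 * 5 ^ i)).card ≤ 2 * 5 ^ i := by
      calc _ ≤ (range (2 * 5 ^ i)).card := by
            refine Finset.card_le_card ?_
            intro n hn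
            rw [Finset.mem_filter] at hn
            rw [Finset.mem_range]
            exact hn.2
        _ = 2 * 5 ^ i := Finset.card_range _
    exact_mod_cast h3
  have h3 := hK N
  linarith

end Pool.Agent.H19.KD
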